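import Pool.Agent.H346.NL.Free

set_option autoImplicit false

/-!
# Positive words which act on each other
-/

namespace Pool.Agent.H346.NL

open Pool.Agent.H17R2 FreeGroup Pool.Agent.H346.FA Pool.Agent.H346.SC

/-- the group -/
abbrev G : Type := Gp sys

/-- the generators -/
abbrev ge (x : Lt) : G := gen sys x

/-- positive products of the generators `c b` -/
def Pz (c : Bool → Lt) : Set G := {g | ∃ l : List Bool, l ≠ [] ∧ g = (l.map fun b => ge (c b)).prod}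

lemma Pz.mul {c : Bool → Lt} {g h : G} (hg : g ∈ Pz c) (hh : h ∈ Pz c) : g * h ∈ Pz c := by
  obtain ⟨l, h1, rfl⟩ := hg
  obtain ⟨l', h2, rfl⟩ := hh
  exact ⟨l ++ l', by simp [h1], by simp⟩

lemma Pz.gen (c : Bool → Lt) (b : Bool) : ge (c b) ∈ Pz c := ⟨[b], by simp, by simp⟩

lemma Pz.ind {c : Bool → Lt} {p : G → Prop} (h1 : ∀ b, p (ge (c b)))
    (h2 : ∀ g h, p g → p h → p (g * h)) {g : G} (hg : g ∈ Pz c) : p g := by
  obtain ⟨l, hl, rfl⟩ := hg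
  induction l with
  | nil => exact absurd rfl hl
  | cons b l ih =>
    rw [List.map_cons, List.prod_cons]
    cases l with
    | nil => simpa using h1 b
    | cons b' l => exact h2 _ _ (h1 b) (ih (by simp))

/-- conjugation of positive products -/
lemma Pz.conj {c c' : Bool → Lt} {x : G} (h : ∀ b, x * ge (c b) * x⁻¹ ∈ Pz c') {g : G}
    (hg : g ∈ Pz c) : x * g * x⁻¹ ∈ Pz c' := by
  refine Pz.ind (p := fun g => x * g * x⁻¹ ∈ Pz c') h ?_ hg
  intro g h hg hh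
  have : x * (g * h) * x⁻¹ = (x * g * x⁻¹) * (x * h * x⁻¹) := by group
  rw [this]
  exact Pz.mul hg hh

lemma Pz.conj2 {c c' : Bool → Lt} (h : ∀ b b', ge (c b) * ge (c' b') * (ge (c b))⁻¹ ∈ Pz c')
    {x g : G} (hx : x ∈ Pz c) (hg : g ∈ Pz c') : x * g * x⁻¹ ∈ Pz c' := by
  refine Pz.ind (p := fun x => ∀ g ∈ Pz c', x * g * x⁻¹ ∈ Pz c') (fun b g hg => Pz.conj (h b) hg)
    ?_ hx g hg
  intro x y hx hy g hg
  have : x * y * g * (x * y)⁻¹ = x * (y * g * y⁻¹) * x⁻¹ := by group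
  rw [this]
  exact hx _ (hy g hg)

lemma pos_mem (c : Bool → Lt) (l : List Bool) (hl : l ≠ []) :
    lift (fun b => ge (c b)) (pos l) ∈ Pz c := by
  refine ⟨l, hl, ?_⟩
  unfold pos
  rw [lift_mk, List.map_map]
  rfl

lemma wd_ne (k : ℕ) : wd k ≠ [] := by
  intro h
  have := wd_length k
  rw [h] at this
  simp at this

lemma rel_one (r : Rl) : lift ge (mk (rel r)) = 1 := by
  have h : lift (gen sys) (mk (rel r)) = ((mk (rel r) : FreeGroup Lt) : Gp sys) := lift_gen' sys _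
  refine h.trans ?_
  rw [QuotientGroup.eq_one_iff, N_sys]
  exact Subgroup.subset_normalClosure ⟨r, rfl⟩

lemma rel_r1 (i j : Bool) : (ge .t)⁻¹ * ge (az i j) * ge .t ∈ Pz .z := by
  have h := rel_one (.r1 i j)
  unfold rel at h
  rw [lift_rel, mul_inv_eq_one] at h
  have e : (ge .t)⁻¹ * ge (az i j) * ge .t = lift (fun b => ge (.z b)) (pos (wd (ix2 i j))) := by
    rw [← h]; simp
  rw [e]
  exact pos_mem _ _ (wd_ne _)

lemma rel_r2 (i j : Bool) : ge .t * ge (ay i j) * (ge .t)⁻¹ ∈ Pz .y := by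
  have h := rel_one (.r2 i j)
  unfold rel at h
  rw [lift_rel, mul_inv_eq_one] at h
  have e : ge .t * ge (ay i j) * (ge .t)⁻¹ = lift (fun b => ge (.y b)) (pos (wd (ix2 i j))) := by
    rw [← h]; simp
  rw [e]
  exact pos_mem _ _ (wd_ne _)

lemma rel_r3 (i j : Bool) : ge (.z i) * ge (.d j) * (ge (.z i))⁻¹ ∈ Pz .d := by
  have h := rel_one (.r3 i j)
  unfold rel at h
  rw [lift_rel, mul_inv_eq_one] at h
  have e : ge (.z i) * ge (.d j) * (ge (.z i))⁻¹ = lift (fun b => ge (.d b)) (pos (wd (ix2 i j))) := by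
    rw [← h]; simp
  rw [e]
  exact pos_mem _ _ (wd_ne _)

lemma rel_r4 (i j : Bool) : ge (.y i) * ge (.e j) * (ge (.y i))⁻¹ ∈ Pz .e := by
  have h := rel_one (.r4 i j)
  unfold rel at h
  rw [lift_rel, mul_inv_eq_one] at h
  have e : ge (.y i) * ge (.e j) * (ge (.y i))⁻¹ = lift (fun b => ge (.e b)) (pos (wd (ix2 i j))) := by
    rw [← h]; simp
  rw [e]
  exact pos_mem _ _ (wd_ne _)

lemma rel_r5 (i j : Bool) : ge (.d i) * ge (.a j) * (ge (.d i))⁻¹ ∈ Pz .a := by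
  have h := rel_one (.r5 i j)
  unfold rel at h
  rw [lift_rel, mul_inv_eq_one] at h
  have e : ge (.d i) * ge (.a j) * (ge (.d i))⁻¹ = lift (fun b => ge (.a b)) (pos (wd (ix2 i j))) := by
    rw [← h]; simp
  rw [e]
  exact pos_mem _ _ (wd_ne _)

lemma rel_r6 (i j : Bool) : ge (.e i) * ge (.a j) * (ge (.e i))⁻¹ ∈ Pz .a := by
  have h := rel_one (.r6 i j)
  unfold rel at h
  rw [lift_rel, mul_inv_eq_one] at h
  have e : ge (.e i) * ge (.a j) * (ge (.e i))⁻¹ =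
      lift (fun b => ge (.a b)) (pos (wd (ix2 i j + 4))) := by
    rw [← h]; simp
  rw [e]
  exact pos_mem _ _ (wd_ne _)

/-- `t⁻¹ ^ m a t ^ m` is a positive product of the `z` -/
lemma conj_z (b : Bool) (m : ℕ) : (ge .t ^ (m + 1))⁻¹ * ge (.a b) * ge .t ^ (m + 1) ∈ Pz .z := by
  induction m with
  | zero =>
    rw [zero_add, pow_one]
    exact rel_r1 false b
  | succ m ih =>
    have h := Pz.conj (c := .z) (c' := .z) (x := (ge .t)⁻¹) (fun b => by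
      rw [inv_inv]; exact rel_r1 true b) ih
    rw [inv_inv] at h
    rw [pow_succ _ (m + 1)]
    have e : (ge .t ^ (m + 1) * ge .t)⁻¹ * ge (.a b) * (ge .t ^ (m + 1) * ge .t) =
      (ge .t)⁻¹ * ((ge .t ^ (m + 1))⁻¹ * ge (.a b) * ge .t ^ (m + 1)) * ge .t := by group
    rw [e]; exact h

lemma conj_y (b : Bool) (m : ℕ) : ge .t ^ (m + 1) * ge (.a b) * (ge .t ^ (m + 1))⁻¹ ∈ Pz .y := by
  induction m with
  | zero =>
    rw [zero_add, pow_one]
    exact rel_r2 false b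
  | succ m ih =>
    have h := Pz.conj (c := .y) (c' := .y) (x := ge .t) (fun b => rel_r2 true b) ih
    rw [pow_succ' _ (m + 1)]
    have e : (ge .t * ge .t ^ (m + 1)) * ge (.a b) * (ge .t * ge .t ^ (m + 1))⁻¹ =
      ge .t * (ge .t ^ (m + 1) * ge (.a b) * (ge .t ^ (m + 1))⁻¹) * (ge .t)⁻¹ := by group
    rw [e]; exact h

/-- positive products of the `t ^ j a t ^ (-j)` with `|j| ≤ n` -/
def Mn (n : ℕ) : Set G := {g | ∃ l : List (Bool × ℤ), (∀ x ∈ l, |x.2| ≤ n) ∧ l ≠ [] ∧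
  g = (l.map fun x => ge .t ^ x.2 * ge (.a x.1) * (ge .t ^ x.2)⁻¹).prod}

lemma Mn.mono {n m : ℕ} (h : n ≤ m) : Mn n ⊆ Mn m := by
  rintro g ⟨l, h1, h2, h3⟩
  exact ⟨l, fun x hx => (h1 x hx).trans (by exact_mod_cast h), h2, h3⟩

lemma Mn.mul {n : ℕ} {g h : G} (hg : g ∈ Mn n) (hh : h ∈ Mn n) : g * h ∈ Mn n := by
  obtain ⟨l, h1, h2, rfl⟩ := hg
  obtain ⟨l', h1', h2', rfl⟩ := hh
  refine ⟨l ++ l', ?_, by simp [h2], by simp⟩
  intro x hx
  rcases List.mem_append.1 hx with hx | hx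
  · exact h1 x hx
  · exact h1' x hx

lemma Mn.of_pz {n : ℕ} {y : G} (hy : y ∈ Pz .a) (i : ℤ) (hi : |i| ≤ n) :
    ge .t ^ i * y * (ge .t ^ i)⁻¹ ∈ Mn n := by
  refine Pz.ind (p := fun y => ge .t ^ i * y * (ge .t ^ i)⁻¹ ∈ Mn n) ?_ ?_ hy
  · intro b
    exact ⟨[(b, i)], by simpa using hi, by simp, by simp⟩
  · intro g h hg hh
    have : ge .t ^ i * (g * h) * (ge .t ^ i)⁻¹ =
      (ge .t ^ i * g * (ge .t ^ i)⁻¹) * (ge .t ^ i * h * (ge .t ^ i)⁻¹) := by group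
    rw [this]
    exact Mn.mul hg hh

lemma Mn.ind {n : ℕ} {p : G → Prop}
    (h1 : ∀ b (j : ℤ), |j| ≤ n → p (ge .t ^ j * ge (.a b) * (ge .t ^ j)⁻¹))
    (h2 : ∀ g h, p g → p h → p (g * h)) {g : G} (hg : g ∈ Mn n) : p g := by
  obtain ⟨l, hl1, hl, rfl⟩ := hg
  induction l with
  | nil => exact absurd rfl hl
  | cons b l ih =>
    rw [List.map_cons, List.prod_cons]
    cases l with
    | nil => simpa using h1 b.1 b.2 (hl1 b List.mem_cons_self)
    | cons b' l =>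
      exact h2 _ _ (h1 _ _ (hl1 b List.mem_cons_self))
        (ih (fun x hx => hl1 x (List.mem_cons_of_mem _ hx)) (by simp))

/-- elements of `Mn n` are positive products of the `z` after conjugation by `t ^ (n + 1)` -/
lemma Mn.toZ {n : ℕ} {g : G} (hg : g ∈ Mn n) :
    (ge .t ^ ((n : ℤ) + 1))⁻¹ * g * ge .t ^ ((n : ℤ) + 1) ∈ Pz .z := by
  refine Mn.ind (p := fun g => (ge .t ^ ((n : ℤ) + 1))⁻¹ * g * ge .t ^ ((n : ℤ) + 1) ∈ Pz .z)
    ?_ ?_ hg
  · intro b j hj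
    rw [abs_le] at hj
    obtain ⟨m, hm⟩ := Int.eq_ofNat_of_zero_le (show 0 ≤ (n : ℤ) - j by omega)
    have h := conj_z b m
    have e : (ge .t ^ ((n : ℤ) + 1))⁻¹ * (ge .t ^ j * ge (.a b) * (ge .t ^ j)⁻¹) *
        ge .t ^ ((n : ℤ) + 1) = (ge .t ^ (m + 1))⁻¹ * ge (.a b) * ge .t ^ (m + 1) := by
      have e1 : ge .t ^ (m + 1) = (ge .t ^ j)⁻¹ * ge .t ^ ((n : ℤ) + 1) := by
        rw [← zpow_neg, ← zpow_add, ← zpow_natCast]
        congr 1
        push_cast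
        omega
      rw [e1]
      group
    rw [e]; exact h
  · intro g h hg hh
    have : (ge .t ^ ((n : ℤ) + 1))⁻¹ * (g * h) * ge .t ^ ((n : ℤ) + 1) =
      ((ge .t ^ ((n : ℤ) + 1))⁻¹ * g * ge .t ^ ((n : ℤ) + 1)) *
      ((ge .t ^ ((n : ℤ) + 1))⁻¹ * h * ge .t ^ ((n : ℤ) + 1)) := by group
    rw [this]
    exact Pz.mul hg hh

lemma Mn.toY {n : ℕ} {g : G} (hg : g ∈ Mn n) :
    ge .t ^ ((n : ℤ) + 1) * g * (ge .t ^ ((n : ℤ) + 1))⁻¹ ∈ Pz .y := by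
  refine Mn.ind (p := fun g => ge .t ^ ((n : ℤ) + 1) * g * (ge .t ^ ((n : ℤ) + 1))⁻¹ ∈ Pz .y)
    ?_ ?_ hg
  · intro b j hj
    rw [abs_le] at hj
    obtain ⟨m, hm⟩ := Int.eq_ofNat_of_zero_le (show 0 ≤ (n : ℤ) + j by omega)
    have h := conj_y b m
    have e : ge .t ^ ((n : ℤ) + 1) * (ge .t ^ j * ge (.a b) * (ge .t ^ j)⁻¹) *
        (ge .t ^ ((n : ℤ) + 1))⁻¹ = ge .t ^ (m + 1) * ge (.a b) * (ge .t ^ (m + 1))⁻¹ := by
      have e1 : ge .t ^ (m + 1) = ge .t ^ ((n : ℤ) + 1) * ge .t ^ j := by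
        rw [← zpow_add, ← zpow_natCast]
        congr 1
        push_cast
        omega
      rw [e1]
      group
    rw [e]; exact h
  · intro g h hg hh
    have : ge .t ^ ((n : ℤ) + 1) * (g * h) * (ge .t ^ ((n : ℤ) + 1))⁻¹ =
      (ge .t ^ ((n : ℤ) + 1) * g * (ge .t ^ ((n : ℤ) + 1))⁻¹) *
      (ge .t ^ ((n : ℤ) + 1) * h * (ge .t ^ ((n : ℤ) + 1))⁻¹) := by group
    rw [this]
    exact Pz.mul hg hh

/-- the conjugating letter -/
def dl (s : Bool) : Lt := cond s (.d false) (.e false)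

/-- the exponent -/
def sgn (s : Bool) : ℤ := cond s 1 (-1)

/-- the main computation -/
lemma main_step {n : ℕ} {U : G} (hU : U ∈ Mn n) (s : Bool) :
    ∃ y ∈ Pz .a, U * (ge .t ^ (sgn s * (n + 1)) * ge (dl s) * (ge .t ^ (sgn s * (n + 1)))⁻¹) * U⁻¹ *
      (ge .t ^ (sgn s * (n + 1)) * ge (.a false) * (ge .t ^ (sgn s * (n + 1)))⁻¹) *
      (U * (ge .t ^ (sgn s * (n + 1)) * ge (dl s) * (ge .t ^ (sgn s * (n + 1)))⁻¹) * U⁻¹)⁻¹ =
      ge .t ^ (sgn s * (n + 1)) * y * (ge .t ^ (sgn s * (n + 1)))⁻¹ := by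
  cases s
  · have h1 := Mn.toY hU
    have h2 := Pz.conj2 rel_r4 h1 (Pz.gen .e false)
    have h3 := Pz.conj2 rel_r6 h2 (Pz.gen .a false)
    refine ⟨_, h3, ?_⟩
    have e : sgn false * ((n : ℤ) + 1) = -((n : ℤ) + 1) := by simp [sgn]
    have e2 : dl false = .e false := rfl
    rw [e, e2]
    group
  · have h1 := Mn.toZ hU
    have h2 := Pz.conj2 rel_r3 h1 (Pz.gen .d false)
    have h3 := Pz.conj2 rel_r5 h2 (Pz.gen .a false)
    refine ⟨_, h3, ?_⟩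
    have e : sgn true * ((n : ℤ) + 1) = (n : ℤ) + 1 := by simp [sgn]
    have e2 : dl true = .d false := rfl
    rw [e, e2]
    group

end Pool.Agent.H346.NL
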