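import Pool.Agent.H346.NL.Defs

set_option autoImplicit false

/-!
# The windows of length 12 of the relators are different
-/

namespace Pool.Agent.H346.NL

theorem bld_chk : bld allO .lf = true := by decide +kernel

end Pool.Agent.H346.NL
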