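import Mathlib

set_option autoImplicit false

/-!
# The presentation

Letters: `a i, z i, y i, d i, e i` (`i : Bool`) and `t`. The relators say
`t⁻¹ x t = w (x)` for `x = a i, z i`, with a positive word in the letters `z`,
`t x t⁻¹ = w (x)` for `x = a i, y i`, with a positive word in the letters `y`,
`z i d j (z i)⁻¹ =` a positive word in the letters `d`,
`y i e j (y i)⁻¹ =` a positive word in the letters `e`,
`d i a j (d i)⁻¹ =` a positive word in the letters `a`,
`e i a j (e i)⁻¹ =` a positive word in the letters `a`.
-/

namespace Pool.Agent.H346.NL

/-- the generators -/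
inductive Lt
  | a (i : Bool)
  | z (i : Bool)
  | y (i : Bool)
  | d (i : Bool)
  | e (i : Bool)
  | t
  deriving DecidableEq

/-- binary digits -/
def bitsAux : ℕ → ℕ → List Bool
  | 0, _ => []
  | k + 1, n => (n % 2 == 1) :: bitsAux k (n / 2)

/-- eight binary words of length `237` -/
def wnum : ℕ → ℕ
  | 0 => 157653298268781771165837582034938715943868705910022227714285479936951742
  | 1 => 50347262088494642560340431666626884974665721557190300344289381835148632
  | 2 => 90192074678306440028232287557921814570857423849476387689376024838745554
  | 3 => 69538186482665290855646760157119765336386633195587306370605120962306665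
  | 4 => 149052645901415763830441109781136394019808117299920355232724496983710203
  | 5 => 49128643848838984226622612354647596471652548611393334895401925124129197
  | 6 => 43837232909046272031517742007895463668699990427261927548899390489824867
  | _ => 142408127502154265519886127094846863006665010054509580653650533578349339

/-- the binary words -/
def wd (k : ℕ) : List Bool := bitsAux 237 (wnum k)

/-- numbering of the relators of one type -/
def ix2 (i j : Bool) : ℕ := cond i (cond j 3 2) (cond j 1 0)

/-- names of the relators -/
inductive Rl
  | r1 (i j : Bool)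
  | r2 (i j : Bool)
  | r3 (i j : Bool)
  | r4 (i j : Bool)
  | r5 (i j : Bool)
  | r6 (i j : Bool)
  deriving DecidableEq

/-- inverse of a word -/
def iv (l : List (Lt × Bool)) : List (Lt × Bool) := (l.map (fun x => (x.1, !x.2))).reverse

/-- the letter in the middle of the relators of types one and two -/
def az (i j : Bool) : Lt := cond i (Lt.z j) (Lt.a j)

def ay (i j : Bool) : Lt := cond i (Lt.y j) (Lt.a j)

/-- the relators -/
def rel : Rl → List (Lt × Bool)
  | .r1 i j => (Lt.t, false) :: (az i j, true) :: (Lt.t, true) ::
      iv ((wd (ix2 i j)).map fun b => (Lt.z b, true))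
  | .r2 i j => (Lt.t, true) :: (ay i j, true) :: (Lt.t, false) ::
      iv ((wd (ix2 i j)).map fun b => (Lt.y b, true))
  | .r3 i j => (Lt.z i, true) :: (Lt.d j, true) :: (Lt.z i, false) ::
      iv ((wd (ix2 i j)).map fun b => (Lt.d b, true))
  | .r4 i j => (Lt.y i, true) :: (Lt.e j, true) :: (Lt.y i, false) ::
      iv ((wd (ix2 i j)).map fun b => (Lt.e b, true))
  | .r5 i j => (Lt.d i, true) :: (Lt.a j, true) :: (Lt.d i, false) ::
      iv ((wd (ix2 i j)).map fun b => (Lt.a b, true))
  | .r6 i j => (Lt.e i, true) :: (Lt.a j, true) :: (Lt.e i, false) ::
      iv ((wd (ix2 i j + 4)).map fun b => (Lt.a b, true))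

/-- oriented relators -/
def orl (p : Rl × Bool) : List (Lt × Bool) := cond p.2 (rel p.1) (iv (rel p.1))

/-- all pairs of booleans -/
def bb : List (Bool × Bool) := [(false, false), (false, true), (true, false), (true, true)]

/-- all the oriented relators -/
def allO : List (Rl × Bool) :=
  (bb.map fun p => Rl.r1 p.1 p.2) ++ (bb.map fun p => Rl.r2 p.1 p.2) ++
  (bb.map fun p => Rl.r3 p.1 p.2) ++ (bb.map fun p => Rl.r4 p.1 p.2) ++
  (bb.map fun p => Rl.r5 p.1 p.2) ++ (bb.map fun p => Rl.r6 p.1 p.2) |>.flatMap
    fun r => [(r, false), (r, true)]

/-- the code of a letter -/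
def dg : Lt × Bool → ℕ
  | (.a i, s) => cond i (cond s 1 2) (cond s 3 4)
  | (.z i, s) => cond i (cond s 5 6) (cond s 7 8)
  | (.y i, s) => cond i (cond s 9 10) (cond s 11 12)
  | (.d i, s) => cond i (cond s 13 14) (cond s 15 16)
  | (.e i, s) => cond i (cond s 17 18) (cond s 19 20)
  | (.t, s) => cond s 21 22

/-- the code of a word -/
def code : List ℕ → ℕ
  | [] => 0
  | x :: l => x + 32 * code l

/-- the code of a doubled oriented relator -/
def pk (p : Rl × Bool) : ℕ := code ((orl p ++ orl p).map dg)

/-- the codes of the windows of length 12 starting at the positions `n - 1, …, 0` -/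
def wins (P : ℕ) : ℕ → List ℕ
  | 0 => []
  | n + 1 => Nat.mod (Nat.shiftRight P (Nat.mul 5 n)) 1152921504606846976 :: wins P n

/-- search trees -/
inductive Tr
  | lf
  | nd (l : Tr) (k : ℕ) (r : Tr)

/-- insertion, fails for a key which is present -/
def ins (k : ℕ) : Tr → Option Tr
  | .lf => some (.nd .lf k .lf)
  | .nd l m r => match Nat.ble m k with
    | false => match ins k l with
      | none => none
      | some l' => some (.nd l' m r)
    | true => match Nat.ble k m with
      | false => match ins k r with
        | none => none
        | some r' => some (.nd l m r')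
      | true => none

/-- insertion of a list of keys -/
def build : List ℕ → Tr → Option Tr
  | [], t => some t
  | 0 :: _, _ => none
  | (k + 1) :: l, t => match ins (Nat.succ k) t with
    | none => none
    | some t' => build l t'

/-- insertion of all the windows of all the relators in the list -/
def bld : List (Rl × Bool) → Tr → Bool
  | [], _ => true
  | p :: l, t => match pk p with
    | 0 => false
    | P + 1 => match build (wins (Nat.succ P) 240) t with
      | none => false
      | some t' => bld l t'

end Pool.Agent.H346.NL
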