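import Pool.Graph.R_seed8.H17R2.FreeFam
import Pool.Agent.H346.NL.Defs

set_option autoImplicit false

/-!
# Periodic extensions, and the correctness of the check
-/

namespace Pool.Agent.H346.NL

open Pool.Agent.H17R2

section per

variable {β : Type} (x0 : β)

/-- periodic extension of a list -/
def pe (l : List β) (k : ℤ) : β := l.getD (k % l.length).toNat x0

lemma pe_add (l : List β) (k : ℤ) : pe x0 l (k + l.length) = pe x0 l k := by
  unfold pe
  rw [Int.add_emod_right]

lemma pe_congr (l : List β) {k k' : ℤ} (h : k % l.length = k' % l.length) :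
    pe x0 l k = pe x0 l k' := by
  unfold pe; rw [h]

lemma pe_nat (l : List β) (k : ℕ) (hk : k < 2 * l.length) : pe x0 l k = (l ++ l).getD k x0 := by
  unfold pe
  rcases lt_or_ge k l.length with h | h
  · rw [Int.emod_eq_of_lt (by omega) (by omega), Int.toNat_natCast, List.getD_append _ _ _ _ h]
  · have e : (k : ℤ) % l.length = ((k - l.length : ℕ) : ℤ) := by
      rw [show (k : ℤ) = ((k - l.length : ℕ) : ℤ) + l.length by omega, Int.add_emod_right]
      exact Int.emod_eq_of_lt (by omega) (by omega)
    rw [e, Int.toNat_natCast, List.getD_append_right _ _ _ _ h]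

lemma pe_map {γ : Type} (f : β → γ) (l : List β) (k : ℤ) :
    pe (f x0) (l.map f) k = f (pe x0 l k) := by
  unfold pe
  rw [List.length_map, List.getD_map]

lemma pe_reverse (l : List β) (hl : l ≠ []) (k : ℤ) :
    pe x0 l.reverse k = pe x0 l (-k - 1) := by
  have hpos : (0 : ℤ) < l.length := by
    have := List.length_pos_of_ne_nil hl
    omega
  unfold pe
  rw [List.length_reverse]
  have h1 := Int.emod_nonneg k hpos.ne'
  have h2 := Int.emod_lt_of_pos k hpos
  have e : (-k - 1) % l.length = l.length - 1 - k % l.length := by
    have h3 := Int.emod_add_mul_ediv k l.length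
    rw [show -k - 1 = (l.length - 1 - k % l.length) + (-(k / l.length) - 1) * l.length by
      linear_combination h3, Int.add_mul_emod_self_right]
    exact Int.emod_eq_of_lt (by omega) (by omega)
  rw [e, List.getD_eq_getElem _ _ (by rw [List.length_reverse]; omega),
    List.getD_eq_getElem _ _ (by omega), List.getElem_reverse]
  congr 1
  omega

end per

section windows

variable {β : Type}

/-- check of all the windows of length four -/
def all4 (f : β → β → β → β → Bool) : List β → Bool
  | x :: y :: z :: w :: l => f x y z w && all4 f (y :: z :: w :: l)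
  | _ => true

lemma all4_spec (x0 : β) (f : β → β → β → β → Bool) (L : List β) (h : all4 f L = true) (j : ℕ)
    (hj : j + 3 < L.length) :
    f (L.getD j x0) (L.getD (j + 1) x0) (L.getD (j + 2) x0) (L.getD (j + 3) x0) = true := by
  induction L generalizing j with
  | nil => simp at hj
  | cons x L ih =>
    match L, ih, h, hj with
    | [], _, _, hj => simp at hj
    | [y], _, _, hj => simp at hj
    | [y, z], _, _, hj => simp at hj
    | y :: z :: w :: l, ih, h, hj =>
      unfold all4 at h
      rw [Bool.and_eq_true] at h
      cases j with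
      | zero => exact h.1
      | succ j =>
        have := ih h.2 j (by simp at hj ⊢; omega)
        exact this

lemma all4_pe (x0 : β) (f : β → β → β → β → Bool) (l : List β) (hl : 4 ≤ l.length)
    (h : all4 f (l ++ l) = true) (k : ℤ) :
    f (pe x0 l k) (pe x0 l (k + 1)) (pe x0 l (k + 2)) (pe x0 l (k + 3)) = true := by
  have hpos : (0 : ℤ) < l.length := by omega
  have h1 := Int.emod_nonneg k hpos.ne'
  have h2 := Int.emod_lt_of_pos k hpos
  obtain ⟨j, hj⟩ := Int.eq_ofNat_of_zero_le h1
  have h3 := all4_spec x0 f (l ++ l) h j (by rw [List.length_append]; omega)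
  rw [← pe_nat x0 l j (by omega), ← pe_nat x0 l (j + 1) (by omega),
    ← pe_nat x0 l (j + 2) (by omega), ← pe_nat x0 l (j + 3) (by omega)] at h3
  have e : ∀ i : ℕ, pe x0 l (k + i) = pe x0 l ((j + i : ℕ) : ℤ) := by
    intro i
    apply pe_congr
    push_cast
    rw [← hj, Int.emod_add_emod]
  have e0 := e 0
  have e1 := e 1
  have e2 := e 2
  have e3 := e 3
  simp only [Nat.cast_zero, add_zero, Nat.cast_one, Nat.cast_ofNat] at e0 e1 e2 e3
  rw [e0, e1, e2, e3]
  exact h3

end windows

section tree

/-- membership -/
def Tr.Mem (x : ℕ) : Tr → Prop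
  | .lf => False
  | .nd l k r => Tr.Mem x l ∨ x = k ∨ Tr.Mem x r

/-- search tree -/
def Tr.Bst : Tr → Prop
  | .lf => True
  | .nd l k r => Tr.Bst l ∧ Tr.Bst r ∧ (∀ x, Tr.Mem x l → x < k) ∧ (∀ x, Tr.Mem x r → k < x)

lemma ins_spec (k : ℕ) : ∀ t t' : Tr, t.Bst → ins k t = some t' →
    t'.Bst ∧ ¬ Tr.Mem k t ∧ ∀ x, Tr.Mem x t' ↔ x = k ∨ Tr.Mem x t := by
  intro t
  induction t with
  | lf =>
    intro t' _ h
    simp only [ins, Option.some.injEq] at h
    subst h
    exact ⟨⟨trivial, trivial, fun _ h => h.elim, fun _ h => h.elim⟩, fun h => h, fun x => by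
      simp [Tr.Mem]⟩
  | nd l m r ihl ihr =>
    rintro t' ⟨bl, br, hl, hr⟩ h
    unfold ins at h
    split at h
    · rename_i hm
      have hkm : k < m := by
        by_contra hcon
        push Not at hcon
        rw [Nat.ble_eq_true_of_le hcon] at hm
        exact Bool.noConfusion hm
      split at h
      · simp at h
      · rename_i l' hl'
        simp only [Option.some.injEq] at h
        subst h
        obtain ⟨b1, b2, b3⟩ := ihl l' bl hl'
        refine ⟨⟨b1, br, ?_, hr⟩, ?_, ?_⟩
        · intro x hx
          rcases (b3 x).1 hx with rfl | hx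
          · exact hkm
          · exact hl x hx
        · rintro (h1 | h1 | h1)
          · exact b2 h1
          · omega
          · have := hr _ h1; omega
        · intro x
          simp only [Tr.Mem, b3]
          tauto
    · split at h
      · rename_i hm hk
        have hkm : m < k := by
          by_contra hcon
          push Not at hcon
          rw [Nat.ble_eq_true_of_le hcon] at hk
          exact Bool.noConfusion hk
        split at h
        · simp at h
        · rename_i r' hr'
          simp only [Option.some.injEq] at h
          subst h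
          obtain ⟨b1, b2, b3⟩ := ihr r' br hr'
          refine ⟨⟨bl, b1, hl, ?_⟩, ?_, ?_⟩
          · intro x hx
            rcases (b3 x).1 hx with rfl | hx
            · exact hkm
            · exact hr x hx
          · rintro (h1 | h1 | h1)
            · have := hl _ h1; omega
            · omega
            · exact b2 h1
          · intro x
            simp only [Tr.Mem, b3]
            tauto
      · simp at h

lemma build_spec : ∀ (ks : List ℕ) (t t' : Tr), t.Bst → build ks t = some t' →
    t'.Bst ∧ ks.Nodup ∧ (∀ k ∈ ks, ¬ Tr.Mem k t) ∧ ∀ x, Tr.Mem x t' ↔ x ∈ ks ∨ Tr.Mem x t := by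
  intro ks
  induction ks with
  | nil =>
    intro t t' ht h
    simp only [build, Option.some.injEq] at h
    subst h
    exact ⟨ht, List.nodup_nil, by simp, by simp⟩
  | cons k ks ih =>
    intro t t' ht h
    cases k with
    | zero => simp [build] at h
    | succ k =>
      unfold build at h
      split at h
      · simp at h
      · rename_i t1 h1
        obtain ⟨b1, b2, b3⟩ := ins_spec _ _ _ ht h1
        obtain ⟨c1, c2, c3, c4⟩ := ih _ _ b1 h
        refine ⟨c1, ?_, ?_, ?_⟩
        · rw [List.nodup_cons]
          refine ⟨fun hmem => c3 _ hmem ((b3 _).2 (Or.inl rfl)), c2⟩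
        · intro x hx
          rcases List.mem_cons.1 hx with rfl | hx
          · exact b2
          · intro hmem
            exact c3 x hx ((b3 x).2 (Or.inr hmem))
        · intro x
          rw [c4, b3, List.mem_cons]
          tauto

lemma bld_spec : ∀ (ps : List (Rl × Bool)) (t : Tr), t.Bst → bld ps t = true →
    (ps.flatMap fun p => wins (pk p) 240).Nodup ∧
      ∀ k ∈ ps.flatMap (fun p => wins (pk p) 240), ¬ Tr.Mem k t := by
  intro ps
  induction ps with
  | nil => intro t _ _; simp
  | cons p ps ih =>
    intro t ht h
    unfold bld at h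
    split at h
    · simp at h
    · rename_i P hP
      split at h
      · simp at h
      · rename_i t' h'
        rw [← hP] at h'
        obtain ⟨c1, c2, c3, c4⟩ := build_spec _ _ _ ht h'
        obtain ⟨d1, d2⟩ := ih _ c1 h
        rw [List.flatMap_cons]
        constructor
        · rw [List.nodup_append']
          refine ⟨c2, d1, ?_⟩
          intro x hx hx'
          exact d2 x hx' ((c4 x).2 (Or.inl hx))
        · intro k hk
          rcases List.mem_append.1 hk with hk | hk
          · exact c3 k hk
          · intro hmem
            exact d2 k hk ((c4 k).2 (Or.inr hmem))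

/-- the key of a window -/
def key (P n : ℕ) : ℕ := (P >>> (5 * n)) % 1152921504606846976

lemma wins_succ (P n : ℕ) : wins P (n + 1) = key P n :: wins P n := rfl

lemma mem_wins (P n s : ℕ) (h : s < n) : key P s ∈ wins P n := by
  induction n with
  | zero => omega
  | succ n ih =>
    rw [wins_succ]
    rcases Nat.lt_succ_iff_lt_or_eq.1 h with h | h
    · exact List.mem_cons_of_mem _ (ih h)
    · rw [h]; exact List.mem_cons_self

lemma wins_inj (P n : ℕ) (h : (wins P n).Nodup) (s s' : ℕ) (hs : s < n) (hs' : s' < n)
    (he : key P s = key P s') : s = s' := by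
  induction n with
  | zero => omega
  | succ n ih =>
    rw [wins_succ, List.nodup_cons] at h
    rcases Nat.lt_succ_iff_lt_or_eq.1 hs with h1 | h1 <;>
    rcases Nat.lt_succ_iff_lt_or_eq.1 hs' with h2 | h2
    · exact ih h.2 h1 h2
    · have h3 := mem_wins P n s h1
      rw [he, h2] at h3
      exact absurd h3 h.1
    · have h3 := mem_wins P n s' h2
      rw [← he, h1] at h3
      exact absurd h3 h.1
    · omega

lemma key_inj (h : bld allO .lf = true) (p p' : Rl × Bool) (hp : p ∈ allO) (hp' : p' ∈ allO)
    (s s' : ℕ) (hs : s < 240) (hs' : s' < 240) (he : key (pk p) s = key (pk p') s') :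
    p = p' ∧ s = s' := by
  obtain ⟨h1, -⟩ := bld_spec allO .lf trivial h
  rw [List.nodup_flatMap] at h1
  obtain ⟨h2, h3⟩ := h1
  have hpp : p = p' := by
    by_contra hne
    have : Std.Symm (Function.onFun List.Disjoint fun p => wins (pk p) 240) :=
      ⟨fun _ _ h => List.Disjoint.symm h⟩
    have h4 := h3.forall hp hp' hne
    exact h4 (mem_wins _ _ _ hs) (by rw [he]; exact mem_wins _ _ _ hs')
  subst hpp
  exact ⟨rfl, wins_inj _ _ (h2 p hp) s s' hs hs' he⟩

end tree

section code

lemma code_cons (x : ℕ) (l : List ℕ) : code (x :: l) = x + 32 * code l := rfl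

lemma code_drop (l : List ℕ) (hl : ∀ x ∈ l, x < 32) (n : ℕ) :
    code l >>> (5 * n) = code (l.drop n) := by
  rw [Nat.shiftRight_eq_div_pow]
  induction n generalizing l with
  | zero => simp
  | succ n ih =>
    cases l with
    | nil => simp [code]
    | cons x l =>
      rw [List.drop_succ_cons, ← ih l (fun y hy => hl y (List.mem_cons_of_mem _ hy))]
      have hx := hl x List.mem_cons_self
      have e : 2 ^ (5 * (n + 1)) = 32 * 2 ^ (5 * n) := by
        rw [mul_add, pow_add]; norm_num; ring
      rw [e, ← Nat.div_div_eq_div_mul]
      congr 1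
      rw [code_cons]
      omega

lemma code_take (l : List ℕ) (hl : ∀ x ∈ l, x < 32) (n : ℕ) :
    code l % 32 ^ n = code (l.take n) := by
  induction n generalizing l with
  | zero => simp [code, Nat.mod_one]
  | succ n ih =>
    cases l with
    | nil => simp [code]
    | cons x l =>
      rw [List.take_succ_cons]
      have hx := hl x List.mem_cons_self
      have h1 := ih l (fun y hy => hl y (List.mem_cons_of_mem _ hy))
      rw [code_cons, code_cons, ← h1]
      have h2 := Nat.mod_add_div (code l) (32 ^ n)
      have h3 : 0 < 32 ^ n := by positivity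
      have h4 := Nat.mod_lt (code l) h3
      have e : x + 32 * code l = x + 32 * (code l % 32 ^ n) + 32 ^ (n + 1) * (code l / 32 ^ n) := by
        conv_lhs => rw [← h2]
        ring
      rw [e, Nat.add_mul_mod_self_left]
      apply Nat.mod_eq_of_lt
      rw [pow_succ]
      omega

end code

end Pool.Agent.H346.NL
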