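import Pool.Graph.R_seed8.H17R2.TorsionFree
import Pool.Agent.H346.NL.Per
import Pool.Agent.H346.NL.Chk

set_option autoImplicit false

/-!
# The small cancellation system
-/

namespace Pool.Agent.H346.NL

open Pool.Agent.H17R2 FreeGroup

/-- default letter -/
def x0 : Lt × Bool := (Lt.t, true)

lemma bitsAux_length (k n : ℕ) : (bitsAux k n).length = k := by
  induction k generalizing n with
  | zero => rfl
  | succ k ih => simp [bitsAux, ih]

lemma iv_length (l : List (Lt × Bool)) : (iv l).length = l.length := by simp [iv]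

lemma rel_length (r : Rl) : (rel r).length = 240 := by
  cases r <;> simp [rel, iv_length, wd, bitsAux_length]

lemma orl_length (p : Rl × Bool) : (orl p).length = 240 := by
  rcases p with ⟨r, b⟩
  cases b
  · exact (iv_length _).trans (rel_length r)
  · exact rel_length r

lemma pe_default {β : Type} (x y : β) (l : List β) (hl : l ≠ []) (k : ℤ) : pe x l k = pe y l k := by
  have hpos : (0 : ℤ) < l.length := by
    have := List.length_pos_of_ne_nil hl
    omega
  have h1 := Int.emod_nonneg k hpos.ne'
  have h2 := Int.emod_lt_of_pos k hpos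
  unfold pe
  rw [List.getD_eq_getElem _ _ (by omega), List.getD_eq_getElem _ _ (by omega)]

lemma rel_ne (r : Rl) : rel r ≠ [] := by
  intro h
  have := rel_length r
  rw [h] at this
  simp at this

/-- the biinfinite word of an oriented relator -/
def wl (p : Rl × Bool) : ℤ → Lt × Bool := pe x0 (orl p)

lemma pe_iv (l : List (Lt × Bool)) (hl : l ≠ []) (m : ℤ) :
    pe x0 (iv l) m = inv2 (pe x0 l (-m - 1)) := by
  unfold iv
  rw [pe_reverse x0 _ (by simpa using hl)]
  have h : (l.map fun x => (x.1, !x.2)) ≠ [] := by simpa using hl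
  rw [pe_default x0 ((fun x : Lt × Bool => (x.1, !x.2)) x0) _ h,
    pe_map x0 (fun x : Lt × Bool => (x.1, !x.2)) l]
  rfl

lemma lab_eq (r : Rl) (s : ℤ) (ε : Bool) (k : ℤ) :
    lab (wl (r, true)) s ε k = wl (r, ε) (sg ε * s + k) := by
  cases ε
  · show inv2 (pe x0 (rel r) (s - k - 1)) = pe x0 (iv (rel r)) (-1 * s + k)
    rw [pe_iv _ (rel_ne r)]
    congr 2
    ring
  · show pe x0 (rel r) (s + k) = pe x0 (rel r) (1 * s + k)
    rw [one_mul]

lemma mem_allO (p : Rl × Bool) : p ∈ allO := by
  rcases p with ⟨r, b⟩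
  cases r <;> rename_i i j <;> cases i <;> cases j <;> cases b <;> decide

lemma dg_lt (x : Lt × Bool) : dg x < 32 := by
  rcases x with ⟨x, s⟩
  cases x <;> (try (rename_i i; cases i)) <;> cases s <;> decide

lemma wl_add (p : Rl × Bool) (k : ℤ) : wl p (k + 240) = wl p k := by
  have := pe_add x0 (orl p) k
  rw [orl_length] at this
  exact this

lemma wl_congr (p : Rl × Bool) {k k' : ℤ} (h : k % 240 = k' % 240) : wl p k = wl p k' := by
  apply pe_congr
  rw [orl_length]; exact h

lemma key_eq (p : Rl × Bool) (s : ℕ) :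
    key (pk p) s = code ((((orl p ++ orl p).drop s).take 12).map dg) := by
  have h1 : ∀ x ∈ (orl p ++ orl p).map dg, x < 32 := by
    intro x hx
    rw [List.mem_map] at hx
    obtain ⟨y, -, rfl⟩ := hx
    exact dg_lt y
  unfold key pk
  rw [code_drop _ h1, show (1152921504606846976 : ℕ) = 32 ^ 12 by norm_num, code_take]
  · rw [List.map_take, List.map_drop]
  · intro x hx
    exact h1 x (List.mem_of_mem_drop hx)

lemma window (p : Rl × Bool) (s : ℕ) (hs : s < 240) :
    ((orl p ++ orl p).drop s).take 12 = (List.range 12).map fun i => wl p ((s + i : ℕ) : ℤ) := by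
  have hlen : (orl p ++ orl p).length = 480 := by
    rw [List.length_append, orl_length]
  apply List.ext_getElem
  · rw [List.length_take, List.length_drop, hlen]
    simp; omega
  · intro i h1 h2
    have hi : i < 12 := by simpa using h2
    rw [List.getElem_take, List.getElem_drop, List.getElem_map, List.getElem_range]
    have e := pe_nat x0 (orl p) (s + i) (by rw [orl_length]; omega)
    show _ = pe x0 (orl p) _
    rw [e, List.getD_eq_getElem _ _ (by rw [hlen]; omega)]

/-- a window of length 12 determines the oriented relator and the position -/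
lemma window_inj (p p' : Rl × Bool) (m m' : ℤ)
    (h : ∀ k : ℕ, k < 12 → wl p (m + k) = wl p' (m' + k)) : p = p' ∧ m % 240 = m' % 240 := by
  have h1 := Int.emod_nonneg m (by norm_num : (240 : ℤ) ≠ 0)
  have h2 := Int.emod_lt_of_pos m (by norm_num : (0 : ℤ) < 240)
  have h1' := Int.emod_nonneg m' (by norm_num : (240 : ℤ) ≠ 0)
  have h2' := Int.emod_lt_of_pos m' (by norm_num : (0 : ℤ) < 240)
  obtain ⟨s, hs⟩ := Int.eq_ofNat_of_zero_le h1
  obtain ⟨s', hs'⟩ := Int.eq_ofNat_of_zero_le h1'
  have hk : key (pk p) s = key (pk p') s' := by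
    rw [key_eq, key_eq, window p s (by omega), window p' s' (by omega)]
    congr 2
    apply List.map_congr_left
    intro i hi
    rw [List.mem_range] at hi
    have h3 := h i hi
    have e1 : wl p (m + i) = wl p ((s + i : ℕ) : ℤ) := by
      apply wl_congr
      push_cast
      rw [← hs, Int.emod_add_emod]
    have e2 : wl p' (m' + i) = wl p' ((s' + i : ℕ) : ℤ) := by
      apply wl_congr
      push_cast
      rw [← hs', Int.emod_add_emod]
    rw [← e1, ← e2, h3]
  obtain ⟨h3, h4⟩ := key_inj bld_chk p p' (mem_allO p) (mem_allO p') s s' (by omega) (by omega) hk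
  exact ⟨h3, by omega⟩

/-- check of reducedness -/
def fred (x y _ _ : Lt × Bool) : Bool := decide (x.1 = y.1 → x.2 = y.2)

lemma red_chk : ∀ p ∈ allO, all4 fred (orl p ++ orl p) = true := by decide +kernel

lemma wl_red (p : Rl × Bool) (k : ℤ) : wl p (k + 1) ≠ inv2 (wl p k) := by
  have h := all4_pe x0 fred (orl p) (by rw [orl_length]; norm_num) (red_chk p (mem_allO p)) k
  intro hcon
  have h1 : (wl p k).1 = (wl p (k + 1)).1 → (wl p k).2 = (wl p (k + 1)).2 := of_decide_eq_true h
  rw [hcon] at h1
  have := h1 rfl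
  simp [inv2] at this

/-- the small cancellation system -/
def sys : Words Lt where
  B := {b | ∃ r, b = (wl (r, true), 240)}
  K := 20
  hK := le_rfl
  per := by
    rintro _ ⟨r, rfl⟩ k
    exact wl_add _ _
  red := by
    rintro _ ⟨r, rfl⟩ k
    exact wl_red _ _
  KL := by
    rintro _ ⟨r, rfl⟩
    norm_num
  sc := by
    rintro _ ⟨r, rfl⟩ _ ⟨r', rfl⟩ s s' ε ε' t h ht
    have ht' : 12 ≤ t := by
      rcases ht with ht | ht <;> simp only at ht <;> omega
    simp only [lab_eq] at h ⊢
    obtain ⟨h1, h2⟩ := window_inj (r, ε) (r', ε') (sg ε * s) (sg ε' * s') (fun k hk => h k (by omega))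
    refine ⟨fun k => ?_, trivial⟩
    rw [h1]
    apply wl_congr
    rw [← Int.emod_add_emod, h2, Int.emod_add_emod]

lemma range_pe (l : List (Lt × Bool)) :
    (List.range l.length).map (fun i : ℕ => pe x0 l i) = l := by
  apply List.ext_getElem
  · rw [List.length_map, List.length_range]
  · intro i h1 h2
    rw [List.getElem_map, List.getElem_range, pe_nat x0 l i (by omega),
      List.getD_append _ _ _ _ h2, List.getD_eq_getElem _ _ h2]

lemma zw_pe (l : List (Lt × Bool)) : zw (pe x0 l) l.length = FreeGroup.mk l := by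
  have h := zw_nat (pe x0 l) l.length
  rw [range_pe] at h
  exact h

lemma zw_rel (r : Rl) : zw (wl (r, true)) 240 = FreeGroup.mk (rel r) := by
  have h := zw_pe (rel r)
  rw [rel_length] at h
  exact h

lemma rel_sys : sys.rel = {g | ∃ r, g = FreeGroup.mk (rel r)} := by
  apply Set.eq_of_subset_of_subset
  · intro g hg
    obtain ⟨b, hb, hgb⟩ := hg
    obtain ⟨r, hr⟩ := hb
    subst hr
    exact ⟨r, hgb.trans (zw_rel r)⟩
  · intro g hg
    obtain ⟨r, hr⟩ := hg
    have h2 : (wl (r, true), (240 : ℤ)) ∈ sys.B := ⟨r, rfl⟩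
    have h3 : g = zw (wl (r, true), (240 : ℤ)).1 (wl (r, true), (240 : ℤ)).2 :=
      hr.trans (zw_rel r).symm
    exact ⟨_, h2, h3⟩

lemma N_sys : sys.toFam.N = Subgroup.normalClosure {g | ∃ r, g = FreeGroup.mk (rel r)} := by
  rw [Words.N_eq, rel_sys]

end Pool.Agent.H346.NL
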