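import Pool.Agent.H346.FA.Ext
import Pool.Agent.H346.FA.Nielsen
import Pool.Agent.H346.NL.Sys
import Pool.Agent.H346.SC.Hyp

set_option autoImplicit false

/-!
# The subgroup generated by `a i` and `t` is free
-/

namespace Pool.Agent.H346.NL

open Pool.Agent.H17R2 FreeGroup Pool.Agent.H346.FA Pool.Agent.H346.SC

lemma lcp_chk : ∀ k k' : Fin 8, k ≠ k' → lcp (wd k) (wd k') ≤ 12 ∧
    lcp (wd k).reverse (wd k').reverse ≤ 12 := by decide +kernel

lemma wd_length (k : ℕ) : (wd k).length = 237 := bitsAux_length _ _

lemma ix2_lt (i j : Bool) : ix2 i j < 4 := by cases i <;> cases j <;> decide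

lemma wd_free {I : Type} (k : I → Fin 8) (hk : Function.Injective k) :
    Function.Injective (lift fun i => pos (wd (k i))) := by
  apply pos_free _ 12
  · intro i; rw [wd_length]; norm_num
  · intro i j hij
    exact (lcp_chk _ _ (fun h => hij (hk h))).1
  · intro i j hij
    exact (lcp_chk _ _ (fun h => hij (hk h))).2

/-- the words of the relators of types one and two -/
def alW : Bool ⊕ Bool → FreeGroup Bool :=
  Sum.elim (fun j => pos (wd (ix2 false j))) (fun j => pos (wd (ix2 true j)))

lemma alW_inj : Function.Injective (lift alW) := by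
  have h := wd_free (fun s : Bool ⊕ Bool => (Sum.elim (fun j => ⟨ix2 false j, (ix2_lt _ _).trans
    (by norm_num)⟩) (fun j => ⟨ix2 true j, (ix2_lt _ _).trans (by norm_num)⟩) s : Fin 8))
    (by decide)
  have e : (fun s : Bool ⊕ Bool => pos (wd ((Sum.elim (fun j => ⟨ix2 false j, (ix2_lt _ _).trans
    (by norm_num)⟩) (fun j => ⟨ix2 true j, (ix2_lt _ _).trans (by norm_num)⟩) s : Fin 8)))) = alW := by
    funext s
    cases s <;> rfl
  rw [e] at h
  exact h

/-- the words of the relators of types three and four, and five -/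
def thW (i j : Bool) : FreeGroup Bool := pos (wd (ix2 i j))

/-- the words of the relators of type six -/
def beW (i j : Bool) : FreeGroup Bool := pos (wd (ix2 i j + 4))

lemma thW_inj (i : Bool) : Function.Injective (lift (thW i)) :=
  wd_free (fun j => ⟨ix2 i j, (ix2_lt _ _).trans (by norm_num)⟩) (by cases i <;> decide)

lemma beW_inj (i : Bool) : Function.Injective (lift (beW i)) :=
  wd_free (fun j => ⟨ix2 i j + 4, by have := ix2_lt i j; omega⟩) (by cases i <;> decide)

lemma lift_pos {G : Type} [Group G] (f : Lt → G) (c : Bool → Lt) (l : List Bool) :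
    lift f (mk (l.map fun b => (c b, true))) = lift (fun b => f (c b)) (pos l) := by
  unfold pos
  rw [lift_mk, lift_mk, List.map_map, List.map_map]
  rfl

lemma lift_rel {G : Type} [Group G] (f : Lt → G) (x y z : Lt × Bool) (c : Bool → Lt)
    (l : List Bool) : lift f (mk (x :: y :: z :: iv (l.map fun b => (c b, true)))) =
      lift f (mk [x]) * lift f (mk [y]) * lift f (mk [z]) *
        (lift (fun b => f (c b)) (pos l))⁻¹ := by
  rw [← lift_pos, ← _root_.map_inv, inv_mk, ← _root_.map_mul, ← _root_.map_mul,
    ← _root_.map_mul, mul_mk, mul_mk, mul_mk]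
  rfl

/-- inverting the last generator of a free group -/
def flip : FreeGroup (Bool ⊕ Unit) →* FreeGroup (Bool ⊕ Unit) :=
  lift (Sum.elim (fun a => of (Sum.inl a)) (fun u => (of (Sum.inr u))⁻¹))

lemma flip_flip : flip.comp flip = MonoidHom.id _ := by
  ext1 x
  cases x <;> simp [flip]

lemma flip_injective : Function.Injective flip := by
  intro a b hab
  have h1 := DFunLike.congr_fun flip_flip a
  have h2 := DFunLike.congr_fun flip_flip b
  rw [MonoidHom.comp_apply] at h1 h2
  rw [hab] at h1
  exact h1.symm.trans h2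

/-- the group acts on a set so that the `a i` and `t` act freely -/
theorem exists_act : ∃ (X : Type) (f : Lt → Equiv.Perm X), (∀ r, lift f (mk (rel r)) = 1) ∧
    Function.Injective (lift (Sum.elim (fun i => f (.a i)) (fun _ : Unit => f .t))) := by
  have : Countable (FreeGroup (Bool ⊕ Unit)) := Quotient.countable
  let X := FreeGroup (Bool ⊕ Unit) × ℕ
  let ρ := lm (FreeGroup (Bool ⊕ Unit))
  have hρ : Good ρ := good_lm
  let a : Bool → Equiv.Perm X := fun i => ρ (of (Sum.inl i))
  let t : Equiv.Perm X := ρ (of (Sum.inr ()))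
  -- the letters `z`
  obtain ⟨E, _, _, x, τ, hx1, hx2, hx3⟩ := ez alW_inj
  obtain ⟨σ, hσ, hσρ⟩ := extend hρ _ hx3
  have sa : ∀ i, σ (x (Sum.inl i)) = a i := by
    intro i
    have := hσρ (of (Sum.inl i))
    rw [lift_apply_of] at this
    exact this
  have st : σ τ = t := by
    have := hσρ (of (Sum.inr ()))
    rw [lift_apply_of] at this
    exact this
  let z : Bool → Equiv.Perm X := fun i => σ (x (Sum.inr i))
  have hz : ∀ y, t⁻¹ * σ (x y) * t = lift z (alW y) := by
    intro y
    have h1 := congrArg σ (hx1 y)
    rw [_root_.map_mul, _root_.map_mul, _root_.map_inv, st] at h1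
    rw [h1, ← MonoidHom.comp_apply]
    congr 1
    ext1 i
    simp [z]
  have hgz : Good (σ.comp (lift x)) := hσ.comp _ hx2
  obtain ⟨E1, _, _, a1, z1, d1, hd1, hd2, hd3⟩ := gam thW thW thW_inj thW_inj
  obtain ⟨σ1, -, hσ1⟩ := extend hgz _ hd3
  have s1a : ∀ i, σ1 (a1 i) = a i := by
    intro i
    have := hσ1 (of (Sum.inl i))
    rw [lift_apply_of] at this
    refine this.trans ?_
    rw [MonoidHom.comp_apply, lift_apply_of, sa]
  have s1z : ∀ i, σ1 (z1 i) = z i := by
    intro i
    have := hσ1 (of (Sum.inr i))
    rw [lift_apply_of] at this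
    refine this.trans ?_
    rw [MonoidHom.comp_apply, lift_apply_of]
  let d : Bool → Equiv.Perm X := fun i => σ1 (d1 i)
  have hd3' : ∀ i j, z i * d j * (z i)⁻¹ = lift d (thW i j) := by
    intro i j
    have h1 := congrArg σ1 (hd1 i j)
    rw [_root_.map_mul, _root_.map_mul, _root_.map_inv, s1z] at h1
    rw [h1, ← MonoidHom.comp_apply]
    congr 1
    ext1 i
    simp [d]
  have hd4' : ∀ i j, d i * a j * (d i)⁻¹ = lift a (thW i j) := by
    intro i j
    have h1 := congrArg σ1 (hd2 i j)
    rw [_root_.map_mul, _root_.map_mul, _root_.map_inv, s1a] at h1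
    rw [h1, ← MonoidHom.comp_apply]
    congr 1
    ext1 i
    simp [s1a]
  -- the letters `y`
  obtain ⟨σ', hσ', hσρ'⟩ := extend hρ ((lift (Sum.elim (fun a => x (Sum.inl a))
    (fun _ : Unit => τ))).comp flip) (hx3.comp flip_injective)
  have sa' : ∀ i, σ' (x (Sum.inl i)) = a i := by
    intro i
    have := hσρ' (of (Sum.inl i))
    rw [MonoidHom.comp_apply] at this
    have e : flip (of (Sum.inl i)) = of (Sum.inl i) := by simp [flip]
    rw [e, lift_apply_of] at this
    exact this
  have st' : σ' τ⁻¹ = t := by
    have := hσρ' (of (Sum.inr ()))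
    rw [MonoidHom.comp_apply] at this
    have e : flip (of (Sum.inr ())) = (of (Sum.inr ()))⁻¹ := by simp [flip]
    rw [e, _root_.map_inv, lift_apply_of] at this
    exact this
  let y : Bool → Equiv.Perm X := fun i => σ' (x (Sum.inr i))
  have hy : ∀ s, t * σ' (x s) * t⁻¹ = lift y (alW s) := by
    intro s
    have h1 := congrArg σ' (hx1 s)
    rw [_root_.map_mul, _root_.map_mul, st', ← inv_inv τ, _root_.map_inv, st'] at h1
    rw [h1, ← MonoidHom.comp_apply]
    congr 1
    ext1 i
    simp [y]
  have hgy : Good (σ'.comp (lift x)) := hσ'.comp _ hx2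
  obtain ⟨E2, _, _, a2, y2, e2, he1, he2, he3⟩ := gam thW beW thW_inj beW_inj
  obtain ⟨σ2, -, hσ2⟩ := extend hgy _ he3
  have s2a : ∀ i, σ2 (a2 i) = a i := by
    intro i
    have := hσ2 (of (Sum.inl i))
    rw [lift_apply_of] at this
    refine this.trans ?_
    rw [MonoidHom.comp_apply, lift_apply_of, sa']
  have s2y : ∀ i, σ2 (y2 i) = y i := by
    intro i
    have := hσ2 (of (Sum.inr i))
    rw [lift_apply_of] at this
    refine this.trans ?_
    rw [MonoidHom.comp_apply, lift_apply_of]
  let e : Bool → Equiv.Perm X := fun i => σ2 (e2 i)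
  have he3' : ∀ i j, y i * e j * (y i)⁻¹ = lift e (thW i j) := by
    intro i j
    have h1 := congrArg σ2 (he1 i j)
    rw [_root_.map_mul, _root_.map_mul, _root_.map_inv, s2y] at h1
    rw [h1, ← MonoidHom.comp_apply]
    congr 1
    ext1 i
    simp [e]
  have he4' : ∀ i j, e i * a j * (e i)⁻¹ = lift a (beW i j) := by
    intro i j
    have h1 := congrArg σ2 (he2 i j)
    rw [_root_.map_mul, _root_.map_mul, _root_.map_inv, s2a] at h1
    rw [h1, ← MonoidHom.comp_apply]
    congr 1
    ext1 i
    simp [s2a]
  let f : Lt → Equiv.Perm X := fun s => match s with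
    | .a i => a i
    | .z i => z i
    | .y i => y i
    | .d i => d i
    | .e i => e i
    | .t => t
  refine ⟨X, f, ?_, ?_⟩
  · intro r
    cases r with
    | r1 i j =>
      unfold rel
      rw [lift_rel, mul_inv_eq_one]
      cases i
      · have := hz (Sum.inl j)
        rw [sa] at this
        simpa [az, f, alW] using this
      · have := hz (Sum.inr j)
        simpa [az, f, alW] using this
    | r2 i j =>
      unfold rel
      rw [lift_rel, mul_inv_eq_one]
      cases i
      · have := hy (Sum.inl j)
        rw [sa'] at this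
        simpa [ay, f, alW] using this
      · have := hy (Sum.inr j)
        simpa [ay, f, alW] using this
    | r3 i j =>
      unfold rel
      rw [lift_rel, mul_inv_eq_one]
      have := hd3' i j
      simpa [f, thW] using this
    | r4 i j =>
      unfold rel
      rw [lift_rel, mul_inv_eq_one]
      have := he3' i j
      simpa [f, thW] using this
    | r5 i j =>
      unfold rel
      rw [lift_rel, mul_inv_eq_one]
      have := hd4' i j
      simpa [f, thW] using this
    | r6 i j =>
      unfold rel
      rw [lift_rel, mul_inv_eq_one]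
      have := he4' i j
      simpa [f, beW] using this
  · have : lift (Sum.elim (fun i => f (.a i)) (fun _ : Unit => f .t)) = ρ := by
      ext1 s
      cases s
      · rw [lift_apply_of]; rfl
      · rw [lift_apply_of]; rfl
    rw [this]
    exact good_lm.injective

/-- the generators of the subgroup -/
def sg1 : Bool ⊕ Unit → Gp sys := Sum.elim (fun i => gen sys (.a i)) (fun _ => gen sys .t)

/-- **the subgroup is free** -/
theorem sg1_free : Function.Injective (lift sg1) := by
  obtain ⟨X, f, h1, h2⟩ := exists_act
  have hN : sys.toFam.N ≤ (lift f).ker := by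
    rw [N_sys]
    apply Subgroup.normalClosure_le_normal
    rintro _ ⟨r, rfl⟩
    exact h1 r
  let F : Gp sys →* Equiv.Perm X := QuotientGroup.lift _ (lift f) (fun x hx => hN hx)
  have hF : F.comp (lift sg1) = lift (Sum.elim (fun i => f (.a i)) (fun _ : Unit => f .t)) := by
    ext1 s
    cases s
    · rw [MonoidHom.comp_apply, lift_apply_of, lift_apply_of]
      show (lift f) (of _) = _
      rw [lift_apply_of]; rfl
    · rw [MonoidHom.comp_apply, lift_apply_of, lift_apply_of]
      show (lift f) (of _) = _
      rw [lift_apply_of]; rfl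
  intro a b hab
  apply h2
  rw [← hF, MonoidHom.comp_apply, MonoidHom.comp_apply, hab]

end Pool.Agent.H346.NL
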