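import Pool.Agent.H346.SC.Hyp
import Pool.Agent.H346.NL.Sys

set_option autoImplicit false

/-!
# Words with isolated letters have small projections to the relator lines
-/

namespace Pool.Agent.H346.NL

open Pool.Agent.H17R2 FreeGroup Pool.Agent.H346.SC

section gen

variable {α : Type} [DecidableEq α]

lemma bt_take {g v : FreeGroup α} (h : Bt (fTree α) 1 v g) :
    v = mk (g.toWord.take (norm v)) := by
  have h1 : fd 1 v + fd v g = fd 1 g := h
  rw [fd_one, fd_one] at h1
  have h2 : norm v + norm (v⁻¹ * g) = norm g := by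
    unfold fd at h1
    exact_mod_cast h1
  have h3 := FreeGroup.toWord_mul_sublist v (v⁻¹ * g)
  rw [mul_inv_cancel_left] at h3
  have h4 := h3.eq_of_length (by
    rw [List.length_append]
    exact h2.symm)
  rw [h4]
  show v = mk (List.take v.toWord.length _)
  rw [List.take_left, mk_toWord]

variable (S : Words α)

/-- the points of a relator line on the geodesic from `1` to `g` -/
lemma pr_label (x : S.toFam.fam) (g : FreeGroup α)
    (hlt : S.toFam.T.pr x.1.1 1 < S.toFam.T.pr x.1.1 g) : ∃ m : ℕ, ∀ j : ℕ,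
      (j : ℤ) ≤ S.toFam.T.pr x.1.1 g - S.toFam.T.pr x.1.1 1 →
        m + j ≤ g.toWord.length ∧
        x.1.1 (S.toFam.T.pr x.1.1 1 + j) = mk (g.toWord.take (m + j)) := by
  have hl := S.toFam.line _ x.2
  have hd := hl.d_eq 1 g hlt.ne
  set a := S.toFam.T.pr x.1.1 1 with ha
  set b := S.toFam.T.pr x.1.1 g with hb
  refine ⟨norm (x.1.1 a), ?_⟩
  intro j hj
  have e1 := hl.pr_spec 1 (a + j)
  have e2 := hl.pr_spec g (a + j)
  rw [← ha, add_sub_cancel_left, abs_of_nonneg (by positivity)] at e1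
  rw [← hb, abs_sub_comm, abs_of_nonneg (by omega : 0 ≤ b - (a + j))] at e2
  rw [abs_sub_comm, abs_of_nonneg (by omega : 0 ≤ b - a)] at hd
  have c1 := S.toFam.T.d_comm g (x.1.1 b)
  have c2 := S.toFam.T.d_comm g (x.1.1 (a + j))
  have hbt : Bt (fTree α) 1 (x.1.1 (a + j)) g := by
    show S.toFam.T.d 1 _ + S.toFam.T.d _ g = S.toFam.T.d 1 g
    omega
  have hn : norm (x.1.1 (a + j)) = norm (x.1.1 a) + j := by
    have f1 : S.toFam.T.d 1 (x.1.1 (a + j)) = norm (x.1.1 (a + j)) := fd_one _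
    have f2 : S.toFam.T.d 1 (x.1.1 a) = norm (x.1.1 a) := fd_one _
    omega
  have h3 := bt_take hbt
  rw [hn] at h3
  refine ⟨?_, h3⟩
  have f1 : S.toFam.T.d 1 (x.1.1 (a + j)) = norm (x.1.1 (a + j)) := fd_one _
  have f2 : S.toFam.T.d 1 g = norm g := fd_one _
  have f3 := S.toFam.T.d_nonneg (x.1.1 (a + j)) g
  have f4 : S.toFam.T.d 1 (x.1.1 (a + j)) + S.toFam.T.d (x.1.1 (a + j)) g = S.toFam.T.d 1 g := hbt
  have f5 : norm g = g.toWord.length := rfl
  omega

lemma rev_pr (x : S.toFam.fam) (p : FreeGroup α) :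
    S.toFam.T.pr (fun k => x.1.1 (-k)) p = - S.toFam.T.pr x.1.1 p := by
  have hl := S.toFam.line _ x.2
  apply hl.rev.pr_eq
  intro k
  have h1 := hl.pr_spec p (-k)
  have h2 := abs_nonneg (-k - S.toFam.T.pr x.1.1 p)
  show S.toFam.T.d p (x.1.1 (- -S.toFam.T.pr x.1.1 p)) ≤ S.toFam.T.d p (x.1.1 (-k))
  rw [neg_neg]
  omega

end gen

/-- letters other than the `z` and `y` -/
def okl (x : Lt × Bool) : Bool := match x.1 with
  | .z _ => false
  | .y _ => false
  | _ => true

/-- the letter `t` -/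
def ist (x : Lt × Bool) : Bool := match x.1 with
  | .t => true
  | _ => false

/-- no window of length four of a relator consists of isolated letters -/
def f4 (x y z w : Lt × Bool) : Bool :=
  !(okl x && okl y && okl z && okl w && (ist x || ist y) && (ist y || ist z) && (ist z || ist w))

lemma f4_chk : ∀ p ∈ allO, all4 f4 (orl p ++ orl p) = true := by decide +kernel

/-- adjacent letters of a word with isolated letters -/
def RL (x y : Lt × Bool) : Prop :=
  okl x = true ∧ okl y = true ∧ (ist x || ist y) = true ∧ (x.1 = y.1 → x.2 = y.2)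

lemma chain_red {l : List (Lt × Bool)} (h : l.IsChain RL) : IsReduced l :=
  h.imp (fun _ _ h => h.2.2.2)

lemma no_four (l : List (Lt × Bool)) (h : l.IsChain RL) (p : Rl × Bool) (m : ℕ) (c : ℤ)
    (hm : m + 4 ≤ l.length) (heq : ∀ j : ℕ, (hj : j < 4) → l[m + j]'(by omega) = wl p (c + j)) :
    False := by
  have h1 := all4_pe x0 f4 (orl p) (by rw [orl_length]; norm_num) (f4_chk p (mem_allO p)) c
  rw [List.isChain_iff_getElem] at h
  have r0 := h m (by omega)
  have r1 := h (m + 1) (by omega)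
  have r2 := h (m + 2) (by omega)
  have e0 := heq 0 (by norm_num)
  have e1 := heq 1 (by norm_num)
  have e2 := heq 2 (by norm_num)
  have e3 := heq 3 (by norm_num)
  simp only [Nat.cast_zero, add_zero, Nat.cast_one, Nat.cast_ofNat] at e0 e1 e2 e3
  rw [e0, e1] at r0
  rw [e1] at r1
  have r1' : RL (wl p (c + 1)) (wl p (c + 2)) := by rw [← e2]; exact r1
  have r2' : RL (wl p (c + 2)) (wl p (c + 3)) := by rw [← e2, ← e3]; exact r2
  obtain ⟨a1, a2, a3, -⟩ := r0
  obtain ⟨-, b2, b3, -⟩ := r1'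
  obtain ⟨-, c2, c3, -⟩ := r2'
  change f4 (wl p c) (wl p (c + 1)) (wl p (c + 2)) (wl p (c + 3)) = true at h1
  unfold f4 at h1
  rw [a1, a2, b2, c2, a3, b3, c3] at h1
  exact Bool.noConfusion h1

lemma pr_small_aux (l : List (Lt × Bool)) (h : l.IsChain RL) (x : sys.toFam.fam)
    (hx : sys.toFam.T.pr x.1.1 1 + 4 ≤ sys.toFam.T.pr x.1.1 (mk l)) : False := by
  have hword : (mk l).toWord = l := by rw [toWord_mk, (chain_red h).reduce_eq]
  obtain ⟨m, hm⟩ := pr_label sys x (mk l) (by omega)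
  rw [hword] at hm
  obtain ⟨⟨φ, L⟩, hφ⟩ := x
  obtain ⟨b, ⟨r, hr⟩, g, s, ε, hb⟩ := hφ
  subst hr
  simp only at hm hx
  have hφ2 : φ = Words.ln (wl (r, true)) g s ε := (Prod.ext_iff.1 hb).1
  set a := sys.toFam.T.pr φ 1
  have hm4 := (hm 4 (by push_cast; omega)).1
  apply no_four l h (r, ε) m (sg ε * s + a) hm4
  intro j hj
  have h1 := (hm j (by omega)).2
  have h2 := (hm (j + 1) (by push_cast; omega)).2
  have h3 : φ (a + j + 1) = φ (a + j) * FreeGroup.mk [lab (wl (r, true)) s ε (a + j)] := by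
    rw [hφ2]
    exact Words.ln_succ _ _ _ _ _
  rw [show a + ((j + 1 : ℕ) : ℤ) = a + j + 1 by push_cast; ring, h3, h1] at h2
  have h4 : l.take (m + (j + 1)) = l.take (m + j) ++ [l[m + j]'(by omega)] := by
    rw [← add_assoc, List.take_succ_eq_append_getElem (by omega)]
  rw [h4, ← mul_mk] at h2
  have h5 := Words.mk_single_inj (mul_left_cancel h2)
  rw [← h5, lab_eq]
  congr 1
  ring

/-- **words with isolated letters have small projections** -/
lemma pr_small (l : List (Lt × Bool)) (h : l.IsChain RL) (x : sys.toFam.fam) :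
    |sys.toFam.T.pr x.1.1 1 - sys.toFam.T.pr x.1.1 (mk l)| ≤ 3 := by
  by_contra hcon
  push Not at hcon
  rcases lt_abs.1 hcon with h1 | h1
  · have hy := sys.toFam.rev_mem x.1 x.2
    apply pr_small_aux l h ⟨_, hy⟩
    show sys.toFam.T.pr (fun k => x.1.1 (-k)) 1 + 4 ≤ sys.toFam.T.pr (fun k => x.1.1 (-k)) (mk l)
    rw [rev_pr, rev_pr]
    omega
  · exact pr_small_aux l h x (by omega)

/-- distances of words with isolated letters -/
lemma dist_iso (l l' : List (Lt × Bool)) (h : l.IsChain RL) (h' : l'.IsChain RL) :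
    (Pool.Agent.H322R3.Hyp.wlen (Set.range (gen sys))
      (((mk l : FreeGroup Lt) : Gp sys)⁻¹ * ((mk l' : FreeGroup Lt) : Gp sys)) : ℤ) =
      fd (mk l) (mk l') := by
  apply dist_eq
  intro x
  have h1 := pr_small l h x
  have h2 := pr_small l' h' x
  have hL : x.1.2 = 240 := by
    obtain ⟨⟨φ, L⟩, hφ⟩ := x
    obtain ⟨b, ⟨r, hr⟩, g, s, ε, hb⟩ := hφ
    subst hr
    exact (Prod.ext_iff.1 hb).2
  have hK : sys.toFam.K = 20 := rfl
  rw [hL, hK]
  have h3 := abs_sub_le (sys.toFam.T.pr x.1.1 (mk l)) (sys.toFam.T.pr x.1.1 1)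
    (sys.toFam.T.pr x.1.1 (mk l'))
  rw [abs_sub_comm (sys.toFam.T.pr x.1.1 (mk l)) (sys.toFam.T.pr x.1.1 1)] at h3
  omega

end Pool.Agent.H346.NL
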