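import Pool.Agent.H346.NL.Word

set_option autoImplicit false

/-!
# The geodesic ray
-/

namespace Pool.Agent.H346.NL

open Pool.Agent.H17R2 FreeGroup Pool.Agent.H346.FA Pool.Agent.H346.SC Pool.Agent.H322R3.Hyp

/-- letters of the free group -/
abbrev Lw : Type := (Bool ⊕ Unit) × Bool

/-- powers of the last generator -/
def tw (s : Bool) (k : ℕ) : List Lw := List.replicate k (Sum.inr (), s)

/-- the invariant of the words `w` of the vertices in the free group -/
structure Inv (n : ℕ) (w : List Lw) : Prop where
  red : IsReduced w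
  last : ∀ p ∈ w.getLast?, p.1 = Sum.inr () → p.2 = sb n
  len : n < w.length
  eq : lift sg1 (mk w) = uu n
  mem : (uu n)⁻¹ ∈ Mn n

lemma inv_zero : Inv 0 [(Sum.inl false, false)] where
  red := List.isChain_singleton _
  last := by
    intro p hp h
    rw [List.getLast?_singleton, Option.mem_def, Option.some.injEq] at hp
    rw [← hp] at h
    cases h
  len := by simp
  eq := by
    unfold uu xl
    simp [sg1]
  mem := by
    have h1 : (uu 0)⁻¹ = ge (.a false) := by
      unfold uu xl
      simp
    rw [h1]
    exact ⟨[(false, 0)], by simp, by simp, by simp⟩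

lemma lift_tw (s : Bool) (k : ℕ) : lift sg1 (mk (tw s k)) = ge .t ^ (sgn s * (k : ℤ)) := by
  unfold tw
  rw [lift_mk, List.map_replicate, List.prod_replicate]
  cases s
  · simp [sgn, sg1]
  · simp [sgn, sg1]

lemma red_neg (l : List Bool) : IsReduced (l.map fun b => ((Sum.inl b : Bool ⊕ Unit), false)) := by
  unfold FreeGroup.IsReduced
  rw [List.isChain_iff_getElem]
  intro i hi h
  simp

lemma red_tw (s : Bool) (k : ℕ) : IsReduced (tw s k) := by
  unfold FreeGroup.IsReduced tw
  rw [List.isChain_iff_getElem]
  intro i hi h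
  simp

lemma red_append {w w' : List Lw} (h : IsReduced w) (h' : IsReduced w')
    (hj : ∀ x ∈ w.getLast?, ∀ y ∈ w'.head?, x.1 = y.1 → x.2 = y.2) : IsReduced (w ++ w') := by
  unfold FreeGroup.IsReduced at *
  rw [List.isChain_append]
  exact ⟨h, h', hj⟩

lemma inv_succ {n : ℕ} {w : List Lw} (h : Inv n w) : ∃ w', w <+: w' ∧ w.length < w'.length ∧
    Inv (n + 1) w' := by
  obtain ⟨y, hy, hstep⟩ := main_step h.mem (sb n)
  obtain ⟨l, hl, hyl⟩ := hy
  set T : G := ge .t ^ (sgn (sb n) * ((n : ℤ) + 1)) with hT
  have hu : uu (n + 1) = uu n * (T * y * T⁻¹)⁻¹ := by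
    rw [← hstep, uu_succ, ← hT]
    group
  let ny : List Lw := l.reverse.map fun b => ((Sum.inl b : Bool ⊕ Unit), false)
  have hny : lift sg1 (mk ny) = y⁻¹ := by
    rw [hyl, lift_mk, List.prod_inv_reverse, List.map_map, List.map_map]
    rw [← List.map_reverse]
    rfl
  have hny0 : ny ≠ [] := by simp [ny, hl]
  let w' : List Lw := w ++ (tw (sb n) (n + 1) ++ (ny ++ tw (!sb n) (n + 1)))
  have hlast : w'.getLast? = some (Sum.inr (), !sb n) := by
    simp only [w']
    rw [List.getLast?_append, List.getLast?_append, List.getLast?_append]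
    unfold tw
    rw [List.getLast?_replicate]
    simp
  refine ⟨w', ⟨_, rfl⟩, ?_, ?_⟩
  · simp only [w', List.length_append]
    unfold tw
    rw [List.length_replicate]
    omega
  · constructor
    · apply red_append h.red
      · apply red_append (red_tw _ _)
        · apply red_append (red_neg _) (red_tw _ _)
          intro p hp q hq hpq
          exfalso
          have hp' := List.mem_of_getLast? hp
          have hq' := List.mem_of_head? hq
          rw [List.mem_map] at hp'
          obtain ⟨b, -, rfl⟩ := hp'
          have := List.eq_of_mem_replicate hq'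
          rw [this] at hpq
          cases hpq
        · intro p hp q hq hpq
          exfalso
          have hp' := List.eq_of_mem_replicate (List.mem_of_getLast? hp)
          have hq2 : q ∈ ny.head? := by
            rw [List.head?_append] at hq
            cases hh : ny.head? with
            | none => exact absurd (List.head?_eq_none_iff.1 hh) hny0
            | some z => rw [hh] at hq; exact hq
          have hq' := List.mem_of_head? hq2
          rw [List.mem_map] at hq'
          obtain ⟨b, -, rfl⟩ := hq'
          rw [hp'] at hpq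
          cases hpq
      · intro p hp q hq hpq
        have hq' : q = (Sum.inr (), sb n) := by
          have : (tw (sb n) (n + 1) ++ (ny ++ tw (!sb n) (n + 1))).head? =
            some (Sum.inr (), sb n) := rfl
          rw [this, Option.mem_def, Option.some.injEq] at hq
          exact hq.symm
        subst hq'
        exact h.last p hp hpq
    · intro p hp _
      rw [hlast, Option.mem_def, Option.some.injEq] at hp
      rw [← hp, sb_succ]
    · have := h.len
      simp only [w', List.length_append]
      unfold tw
      rw [List.length_replicate]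
      omega
    · simp only [w']
      rw [← mul_mk, ← mul_mk, ← mul_mk, _root_.map_mul, _root_.map_mul, _root_.map_mul, h.eq, hny,
        lift_tw, lift_tw, sgn_not, hu]
      push_cast
      rw [neg_mul, zpow_neg, ← hT]
      group
    · rw [hu, mul_inv_rev, inv_inv]
      apply Mn.mul _ (Mn.mono (Nat.le_succ n) h.mem)
      apply Mn.of_pz ⟨l, hl, hyl⟩
      rw [abs_mul]
      have h1 : |sgn (sb n)| = 1 := by cases sb n <;> simp [sgn]
      rw [h1, one_mul]
      push_cast
      rw [abs_of_nonneg (by omega)]

/-- the sequence of words -/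
noncomputable def ws : (n : ℕ) → {w : List Lw // Inv n w}
  | 0 => ⟨_, inv_zero⟩
  | n + 1 => ⟨(inv_succ (ws n).2).choose, (inv_succ (ws n).2).choose_spec.2.2⟩

lemma ws_prefix (n : ℕ) : (ws n).1 <+: (ws (n + 1)).1 := (inv_succ (ws n).2).choose_spec.1

lemma ws_lt (n : ℕ) : (ws n).1.length < (ws (n + 1)).1.length :=
  (inv_succ (ws n).2).choose_spec.2.1

lemma ws_mono {n m : ℕ} (h : n ≤ m) : (ws n).1 <+: (ws m).1 := by
  induction m with
  | zero =>
    have : n = 0 := by omega
    subst this; exact List.prefix_rfl
  | succ m ih =>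
    rcases Nat.lt_or_ge n (m + 1) with h1 | h1
    · exact (ih (by omega)).trans (ws_prefix m)
    · have : n = m + 1 := by omega
      subst this; exact List.prefix_rfl

/-- the infinite word -/
noncomputable def iwn (k : ℕ) : Lw := (ws k).1[k]'((ws k).2.len)

/-- the infinite word, extended to the left -/
noncomputable def iw (k : ℤ) : Lw := iwn k.toNat

lemma iw_eq (n k : ℕ) (hk : k < (ws n).1.length) : (ws n).1[k] = iw k := by
  have h1 := (ws k).2.len
  show _ = iwn (k : ℤ).toNat
  rw [Int.toNat_natCast]
  unfold iwn
  rcases le_total n k with h | h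
  · exact (ws_mono h).getElem hk
  · exact ((ws_mono h).getElem h1).symm

lemma iw_red (k : ℤ) : iw (k + 1) ≠ inv2 (iw k) := by
  rcases lt_or_ge k 0 with h | h
  · have h1 : iw (k + 1) = iw 0 := by
      unfold iw
      have : (k + 1).toNat = (0 : ℤ).toNat := by omega
      simp only [this]
    have h2 : iw k = iw 0 := by
      unfold iw
      have : k.toNat = (0 : ℤ).toNat := by omega
      simp only [this]
    rw [h1, h2]
    intro h3
    have := congrArg Prod.snd h3
    simp [inv2] at this
  · obtain ⟨m, rfl⟩ := Int.eq_ofNat_of_zero_le h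
    have h1 := (ws (m + 1)).2.len
    have e1 := iw_eq (m + 1) m (by omega)
    have e2 := iw_eq (m + 1) (m + 1) h1
    have hr := (ws (m + 1)).2.red
    unfold FreeGroup.IsReduced at hr
    rw [List.isChain_iff_getElem] at hr
    have h2 := hr m (by omega)
    have e3 : ((m : ℤ) + 1) = ((m + 1 : ℕ) : ℤ) := by push_cast; ring
    rw [e3, ← e1, ← e2]
    intro h3
    rw [h3] at h2
    have := h2 rfl
    simp [inv2] at this

lemma zw_ws (n : ℕ) : zw iw (ws n).1.length = mk (ws n).1 := by
  rw [zw_nat]
  congr 1
  apply List.ext_getElem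
  · simp
  · intro i h1 h2
    rw [List.getElem_map, List.getElem_range, iw_eq n i h2]

/-- the subgroup -/
def Hs : Subgroup G := (lift sg1).range

/-- the generators of the subgroup -/
def f1 (s : Bool ⊕ Unit) : Hs := ⟨sg1 s, of s, by simp⟩

lemma f1_coe : Hs.subtype.comp (lift f1) = lift sg1 := by
  ext1 s
  simp [f1]

lemma f1_coe' (g : FreeGroup (Bool ⊕ Unit)) : ((lift f1 g : Hs) : G) = lift sg1 g :=
  DFunLike.congr_fun f1_coe g

lemma f1_inj : Function.Injective (lift f1) := by
  intro a b hab
  apply sg1_free
  rw [← f1_coe', ← f1_coe', hab]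

lemma f1_surj : Function.Surjective (lift f1) := by
  rintro ⟨_, g, rfl⟩
  exact ⟨g, Subtype.ext (f1_coe' g)⟩

lemma f1_closure : Subgroup.closure (Set.range f1) = ⊤ := by
  rw [← FreeGroup.range_lift_eq_closure]
  exact MonoidHom.range_eq_top.2 f1_surj

/-- the ray -/
noncomputable def ray (k : ℕ) : Hs := lift f1 (zw iw k)

lemma ray_zero : ray 0 = 1 := by
  unfold ray
  simp

lemma ray_dist (m n : ℕ) : wdist (Set.range f1) (ray m) (ray n) = |(m : ℝ) - n| := by
  unfold wdist ray
  rw [← _root_.map_inv, ← _root_.map_mul, wlen_free f1 f1_closure f1_inj]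
  have h := isLine_zw iw iw_red m n
  change ((norm ((zw iw m)⁻¹ * zw iw n) : ℕ) : ℤ) = |(m : ℤ) - n| at h
  have h2 : (norm ((zw iw m)⁻¹ * zw iw n) : ℝ) = ((norm ((zw iw m)⁻¹ * zw iw n) : ℤ) : ℝ) := by
    norm_cast
  rw [h2, h]
  push_cast
  rfl

/-- the vertices `u n` are on the ray -/
lemma ray_vertex (n : ℕ) : ((ray (ws n).1.length : Hs) : G) = uu n := by
  unfold ray
  rw [f1_coe', zw_ws, (ws n).2.eq]

lemma ws_strictMono : StrictMono fun n => (ws n).1.length := strictMono_nat_of_lt_succ ws_lt

end Pool.Agent.H346.NL
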