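import Pool.Agent.H346.NL.Alg
import Pool.Agent.H346.NL.Proj

set_option autoImplicit false

/-!
# The words of the vertices `u n`
-/

namespace Pool.Agent.H346.NL

open Pool.Agent.H17R2 FreeGroup Pool.Agent.H346.FA Pool.Agent.H346.SC Pool.Agent.H322R3.Hyp

/-- the sign of the `n + 1`-st exponent -/
def sb (n : ℕ) : Bool := n % 2 == 0

lemma sb_succ (n : ℕ) : sb (n + 1) = !sb n := by
  unfold sb
  rcases Nat.mod_two_eq_zero_or_one n with h | h
  · rw [h, Nat.add_mod, h]; rfl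
  · rw [h, Nat.add_mod, h]; rfl

/-- powers of `t` -/
def tt (s : Bool) (k : ℕ) : List (Lt × Bool) := List.replicate k (Lt.t, s)

/-- the words -/
def xl : ℕ → List (Lt × Bool)
  | 0 => [(Lt.a false, false)]
  | n + 1 => tt (sb n) (n + 1) ++ ([(dl (sb n), true)] ++ (tt (!sb n) (n + 1) ++ (xl n ++
      (tt (sb n) (n + 1) ++ ([(Lt.a false, false)] ++ (tt (!sb n) (n + 1) ++ (iv (xl n) ++
      (tt (sb n) (n + 1) ++ ([(dl (sb n), false)] ++ (tt (!sb n) (n + 1) ++ xl n))))))))))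

/-- a word with isolated letters with given first and last letters -/
def Blk (h l : Lt × Bool) (L : List (Lt × Bool)) : Prop :=
  L.IsChain RL ∧ L.head? = some h ∧ L.getLast? = some l

lemma Blk.append {h l h' l' : Lt × Bool} {L L' : List (Lt × Bool)} (b : Blk h l L)
    (b' : Blk h' l' L') (hr : RL l h') : Blk h l' (L ++ L') := by
  obtain ⟨a1, a2, a3⟩ := b
  obtain ⟨c1, c2, c3⟩ := b'
  refine ⟨?_, ?_, ?_⟩
  · rw [List.isChain_append]
    refine ⟨a1, c1, ?_⟩
    intro x hx y hy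
    rw [a3, Option.mem_def, Option.some.injEq] at hx
    rw [c2, Option.mem_def, Option.some.injEq] at hy
    rw [← hx, ← hy]; exact hr
  · rw [List.head?_append, a2]; rfl
  · rw [List.getLast?_append, c3]; rfl

lemma Blk.single (x : Lt × Bool) : Blk x x [x] := ⟨List.isChain_singleton _, rfl, rfl⟩

lemma RL_tt (s : Bool) : RL (Lt.t, s) (Lt.t, s) := ⟨rfl, rfl, rfl, fun _ => rfl⟩

lemma RL_symm {x y : Lt × Bool} (h : RL x y) : RL y x :=
  ⟨h.2.1, h.1, by rw [Bool.or_comm]; exact h.2.2.1, fun e => (h.2.2.2 e.symm).symm⟩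

lemma okl_inv (x : Lt × Bool) : okl (x.1, !x.2) = okl x := rfl
lemma ist_inv (x : Lt × Bool) : ist (x.1, !x.2) = ist x := rfl

lemma RL_inv {x y : Lt × Bool} (h : RL x y) : RL (x.1, !x.2) (y.1, !y.2) :=
  ⟨h.1, h.2.1, h.2.2.1, fun e => by
    have := h.2.2.2 e
    simp [this]⟩

lemma Blk.tt (s : Bool) (k : ℕ) : Blk (Lt.t, s) (Lt.t, s) (tt s (k + 1)) := by
  refine ⟨?_, ?_, ?_⟩
  · unfold NL.tt
    rw [List.isChain_iff_getElem]
    intro i hi
    rw [List.getElem_replicate, List.getElem_replicate]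
    exact RL_tt s
  · rfl
  · unfold NL.tt
    rw [List.getLast?_replicate]; simp

lemma Blk.iv {h l : Lt × Bool} {L : List (Lt × Bool)} (b : Blk h l L) :
    Blk (l.1, !l.2) (h.1, !h.2) (iv L) := by
  obtain ⟨a1, a2, a3⟩ := b
  unfold NL.iv
  refine ⟨?_, ?_, ?_⟩
  · rw [List.isChain_reverse, List.isChain_map]
    exact a1.imp (fun x y h => RL_symm (RL_inv h))
  · rw [List.head?_reverse, List.getLast?_map, a3]; rfl
  · rw [List.getLast?_reverse, List.head?_map, a2]; rfl

/-- the first letter of `xl n` -/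
def hd (n : ℕ) : Lt × Bool := match n with
  | 0 => (Lt.a false, false)
  | n + 1 => (Lt.t, sb n)

lemma RL_hd (n : ℕ) : RL (Lt.t, !sb n) (hd n) := by
  cases n with
  | zero => exact ⟨rfl, rfl, rfl, fun h => by cases h⟩
  | succ n =>
    rw [sb_succ, Bool.not_not]
    exact RL_tt _

lemma RL_hd' (n : ℕ) : RL ((hd n).1, !(hd n).2) (Lt.t, sb n) := by
  cases n with
  | zero => exact ⟨rfl, rfl, rfl, fun h => by cases h⟩
  | succ n =>
    rw [sb_succ]
    exact RL_tt _

lemma RL_ts (s : Bool) (x : Lt × Bool) (hx : okl x = true) (hx2 : ist x = false) :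
    RL (Lt.t, s) x := by
  refine ⟨rfl, hx, rfl, fun h => ?_⟩
  exfalso
  unfold ist at hx2
  rw [← h] at hx2
  exact Bool.noConfusion hx2

lemma RL_dl (s : Bool) (x : Bool) (y : Bool) : RL (Lt.t, s) (dl x, y) :=
  RL_ts _ _ (by cases x <;> rfl) (by cases x <;> rfl)

lemma xl_blk (n : ℕ) : Blk (hd n) (Lt.a false, false) (xl n) := by
  induction n with
  | zero => exact Blk.single _
  | succ n ih =>
    have ha : ∀ s b, RL (Lt.t, s) (Lt.a false, b) := fun s b => RL_ts _ _ rfl rfl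
    exact (Blk.tt (sb n) n).append ((Blk.single _).append ((Blk.tt (!sb n) n).append (ih.append
      ((Blk.tt (sb n) n).append ((Blk.single _).append ((Blk.tt (!sb n) n).append (ih.iv.append
      ((Blk.tt (sb n) n).append ((Blk.single _).append ((Blk.tt (!sb n) n).append ih
      (RL_hd n)) (RL_symm (RL_dl _ _ _))) (RL_dl _ _ _)) (RL_hd' n)) (ha _ _)) (RL_symm (ha _ _)))
      (ha _ _)) (RL_symm (ha _ _))) (RL_hd n)) (RL_symm (RL_dl _ _ _))) (RL_dl _ _ _)

/-- the vertices -/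
def uu (n : ℕ) : G := lift ge (mk (xl n))

lemma uu_eq (n : ℕ) : uu n = ((mk (xl n) : FreeGroup Lt) : Gp sys) := lift_gen' sys _

lemma lift_tt (s : Bool) (k : ℕ) : lift ge (mk (tt s k)) = ge .t ^ (sgn s * (k : ℤ)) := by
  unfold tt
  rw [lift_mk, List.map_replicate, List.prod_replicate]
  cases s
  · simp [sgn]
  · simp [sgn]

lemma sgn_not (s : Bool) : sgn (!s) = - sgn s := by cases s <;> simp [sgn]

lemma lift_iv (l : List (Lt × Bool)) : lift ge (mk (iv l)) = (lift ge (mk l))⁻¹ := by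
  rw [← _root_.map_inv, inv_mk]; rfl

lemma lift_append (l l' : List (Lt × Bool)) :
    lift ge (mk (l ++ l')) = lift ge (mk l) * lift ge (mk l') := by
  rw [← mul_mk, _root_.map_mul]

lemma uu_succ (n : ℕ) : uu (n + 1) =
    (ge .t ^ (sgn (sb n) * (n + 1)) * ge (dl (sb n)) * (ge .t ^ (sgn (sb n) * (n + 1)))⁻¹) * uu n *
    (ge .t ^ (sgn (sb n) * (n + 1)) * ge (.a false) * (ge .t ^ (sgn (sb n) * (n + 1)))⁻¹)⁻¹ *
    (uu n)⁻¹ *
    (ge .t ^ (sgn (sb n) * (n + 1)) * ge (dl (sb n)) * (ge .t ^ (sgn (sb n) * (n + 1)))⁻¹)⁻¹ *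
    uu n := by
  unfold uu
  conv_lhs => unfold xl
  simp only [lift_append, lift_tt, lift_iv, sgn_not]
  have e1 : lift ge (mk [(dl (sb n), true)]) = ge (dl (sb n)) := by simp
  have e2 : lift ge (mk [(dl (sb n), false)]) = (ge (dl (sb n)))⁻¹ := by simp
  have e3 : lift ge (mk [(Lt.a false, false)]) = (ge (Lt.a false))⁻¹ := by simp
  rw [e1, e2, e3]
  push_cast
  rw [neg_mul, zpow_neg]
  group

lemma xl_start (n : ℕ) : ∃ r, xl (n + 1) = tt (sb n) (n + 1) ++ r := ⟨_, rfl⟩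

lemma lcp_rep {β : Type} [DecidableEq β] (x : β) (k m : ℕ) (r r' : List β) :
    min k m ≤ lcp (List.replicate k x ++ r) (List.replicate m x ++ r') := by
  induction k generalizing m with
  | zero => simp
  | succ k ih =>
    cases m with
    | zero => simp
    | succ m =>
      have := ih m
      simp only [List.replicate_succ, List.cons_append, lcp, if_true]
      omega

lemma lcp_same {n m : ℕ} (h : sb n = sb m) : min n m + 1 ≤ lcp (xl (n + 1)) (xl (m + 1)) := by
  obtain ⟨r, hr⟩ := xl_start n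
  obtain ⟨r', hr'⟩ := xl_start m
  rw [hr, hr', h]
  have := lcp_rep (Lt.t, sb m) (n + 1) (m + 1) r r'
  unfold tt
  omega

lemma lcp_diff {n m : ℕ} (h : sb n ≠ sb m) : lcp (xl (n + 1)) (xl (m + 1)) = 0 := by
  obtain ⟨r, hr⟩ := xl_start n
  obtain ⟨r', hr'⟩ := xl_start m
  rw [hr, hr']
  unfold tt
  simp only [List.replicate_succ, List.cons_append, lcp]
  rw [if_neg (by simpa using h)]

lemma toWord_xl (n : ℕ) : (mk (xl n)).toWord = xl n := by
  rw [toWord_mk, (chain_red (xl_blk n).1).reduce_eq]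

/-- the generating set -/
abbrev SS : Set G := Set.range (gen sys)

lemma dist_xl (n m : ℕ) : (wlen SS ((uu n)⁻¹ * uu m) : ℝ) =
    (xl n).length + (xl m).length - 2 * lcp (xl n) (xl m) := by
  have h := dist_iso (xl n) (xl m) (xl_blk n).1 (xl_blk m).1
  unfold fd at h
  rw [H17R2.norm_inv_mul, toWord_xl, toWord_xl, ← uu_eq, ← uu_eq, FreeGroup.norm, FreeGroup.norm,
    toWord_xl, toWord_xl] at h
  exact_mod_cast h

lemma len_xl (n : ℕ) : (wlen SS ((uu n)⁻¹ * 1) : ℝ) = (xl n).length := by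
  have h := dist_iso (xl n) [] (xl_blk n).1 List.isChain_nil
  unfold fd at h
  rw [H17R2.norm_inv_mul, toWord_xl, ← uu_eq, FreeGroup.norm, toWord_xl] at h
  have e : ((mk ([] : List (Lt × Bool)) : FreeGroup Lt)) = 1 := rfl
  rw [e] at h
  have e2 : (((1 : FreeGroup Lt)) : Gp sys) = 1 := rfl
  rw [e2, FreeGroup.norm_one, FreeGroup.toWord_one] at h
  have e3 : lcp (xl n) [] = 0 := by cases xl n <;> rfl
  rw [e3] at h
  have : (wlen SS ((uu n)⁻¹ * 1) : ℤ) = (xl n).length := by rw [h]; push_cast; ring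
  exact_mod_cast this

/-- **Gromov products of the vertices** -/
lemma gprod_uu (n m : ℕ) : gprod SS 1 (uu n) (uu m) = lcp (xl n) (xl m) := by
  unfold gprod wdist
  rw [dist_xl, len_xl, len_xl]
  ring

end Pool.Agent.H346.NL
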